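import Pool.Agent.P8H98.XE.Real
import Pool.Agent.N804.WinT

set_option autoImplicit false

/-! # Good endpoints are relatively dense -/

namespace Pool.Agent.P8H98.XE

open Filter Topology Set MeasureTheory
open N804

/-- the centred counting function -/
noncomputable def gT (T x : ℝ) : ℝ := CF T x - PP x + (MF T - 1) / 2

/-- its integral -/
noncomputable def VT (T a : ℝ) : ℝ :=
  (∫ x in (0 : ℝ)..a, (CF T x - PP x)) + (MF T - 1) * a / 2

lemma VT_zero (T : ℝ) : VT T 0 = 0 := by simp [VT]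

lemma gT_meas {T : ℝ} (hT : 1 < T) : Measurable (gT T) := by
  have hm : Monotone (CF T) := fun x y hxy => CF_mono hT hxy
  exact (hm.measurable.sub PP_cont.measurable).add_const _

lemma d_ii {T : ℝ} (hT : 1 < T) (a b : ℝ) :
    IntervalIntegrable (fun x => CF T x - PP x) volume a b :=
  (CF_ii hT a b).sub (PP_cont.intervalIntegrable _ _)

lemma gT_ii {T : ℝ} (hT : 1 < T) (a b : ℝ) : IntervalIntegrable (gT T) volume a b :=
  (d_ii hT a b).add intervalIntegrable_const

lemma gT_low {T : ℝ} (hT : 1 < T) {x y : ℝ} (h : x ≤ y) : gT T x - (y - x) ≤ gT T y := by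
  have h1 := CF_mono hT h
  have h2 := PP_lip h
  unfold gT
  linarith

lemma gT_int {T : ℝ} (hT : 1 < T) (a b : ℝ) : ∫ x in a..b, gT T x = VT T b - VT T a := by
  unfold gT VT
  rw [intervalIntegral.integral_add (d_ii hT a b) intervalIntegrable_const,
    intervalIntegral.integral_const, smul_eq_mul,
    ← intervalIntegral.integral_add_adjacent_intervals (d_ii hT 0 a) (d_ii hT a b)]
  ring

/-- exact value of a window starting at a point of continuity -/
lemma NW_exact {T x y : ℝ} (hT : 1 < T) (hx : 0 < x) (hxy : x ≤ y) (hc : ContinuousAt (CF T) x) :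
    NW T x y / XX T = CF T y - CF T x := by
  refine le_antisymm ?_ (NW_ge hT)
  have h1 : Tendsto (fun z => CF T y - CF T z) (𝓝[<] x) (𝓝 (CF T y - CF T x)) :=
    (hc.tendsto.mono_left nhdsWithin_le_nhds).const_sub _
  refine ge_of_tendsto h1 ?_
  filter_upwards [Ioo_mem_nhdsLT hx] with z hz
  exact NW_le hT hz.1.le hz.2 hxy

/-- the cells -/
lemma VT_cells : ∃ K : ℝ, 0 < K ∧ ∀ L : ℝ, 0 < L → ∀ J : ℕ, ∀ᶠ T in atTop, ∀ j ≤ J,
    |VT T (j * L)| ≤ K := by
  obtain ⟨K, hK, h⟩ := mean_T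
  refine ⟨K, hK, fun L hL J => ?_⟩
  have h1 : ∀ᶠ T in atTop, ∀ j ∈ Finset.range (J + 1), |VT T (j * L)| ≤ K := by
    rw [Filter.eventually_all_finset]
    intro j _
    rcases Nat.eq_zero_or_pos j with hj | hj
    · rw [hj]
      refine Eventually.of_forall fun T => ?_
      rw [Nat.cast_zero, zero_mul, VT_zero, abs_zero]
      exact hK.le
    · have hj' : (0 : ℝ) < j := by exact_mod_cast hj
      exact h (j * L) (by positivity)
  filter_upwards [h1] with T hT j hj
  exact hT j (Finset.mem_range.2 (by omega))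

/-- **main theorem** -/
theorem main : ∃ C : ℝ, 0 < C ∧ ∀ ε : ℝ, 0 < ε → ε ≤ 1 → ∀ A : ℝ, 0 < A → ∀ᶠ T in atTop,
    ∃ D : Set ℝ, D ⊆ Ioc 0 (A + C / ε) ∧
      (∀ a ∈ Icc 0 A, ENNReal.ofReal (ε / 2) ≤ volume (D ∩ Icc a (a + C / ε))) ∧
      ∀ x ∈ D, ∀ y ∈ D, x < y → |NW T x y / XX T - (PP y - PP x)| ≤ ε := by
  obtain ⟨K, hK, h⟩ := VT_cells
  refine ⟨6 * (2 * K + 1), by positivity, fun ε hε hε1 A hA => ?_⟩
  set c : ℝ := ε / 2 with hc
  have hc0 : 0 < c := by positivity
  set L : ℝ := (2 * K + 1) / c with hL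
  have hL0 : 0 < L := by positivity
  have hcL : c * L = 2 * K + 1 := by rw [hL]; field_simp
  have hCL : 6 * (2 * K + 1) / ε = 3 * L := by rw [hL, hc]; field_simp; ring
  rw [hCL]
  filter_upwards [h L hL0 (⌈A / L⌉₊ + 2), eventually_ge_atTop 2] with T hV hT2
  have hT : 1 < T := by linarith
  have hm : Monotone (CF T) := fun x y hxy => CF_mono hT hxy
  refine ⟨{x | (0 < x ∧ x ≤ A + 3 * L) ∧ |gT T x| ≤ c ∧ ContinuousAt (CF T) x}, fun x hx => hx.1,
    fun a ha => ?_, fun x hx y hy hxy => ?_⟩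
  · -- the cell
    set j : ℕ := ⌈a / L⌉₊ with hj
    have hjJ : j ≤ ⌈A / L⌉₊ := Nat.ceil_mono (by gcongr; exact ha.2)
    have hj1 : a ≤ j * L := by
      have := Nat.le_ceil (a / L)
      rwa [div_le_iff₀ hL0] at this
    have hj2 : (j : ℝ) * L < a + L := by
      have := Nat.ceil_lt_add_one (show 0 ≤ a / L by exact div_nonneg ha.1 hL0.le)
      have h2 : (j : ℝ) * L < (a / L + 1) * L := mul_lt_mul_of_pos_right this hL0
      have h3 : (a / L + 1) * L = a + L := by field_simp
      linarith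
    have v0 := hV j (by omega)
    have v1 := hV (j + 1) (by omega)
    have v2 := hV (j + 2) (by omega)
    push_cast at v1 v2
    have e1 : ((j : ℝ) + 1) * L = j * L + L := by ring
    have e2 : ((j : ℝ) + 2) * L = j * L + 2 * L := by ring
    rw [e1] at v1
    rw [e2] at v2
    have k0 := abs_le.1 v0
    have k1 := abs_le.1 v1
    have k2 := abs_le.1 v2
    have i1 : |∫ x in ((j : ℝ) * L)..(j * L + L), gT T x| ≤ 2 * K := by
      rw [gT_int hT, abs_le]
      constructor <;> linarith [k0.1, k0.2, k1.1, k1.2]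
    have i2 : |∫ x in ((j : ℝ) * L + L)..(j * L + 2 * L), gT T x| ≤ 2 * K := by
      rw [gT_int hT, abs_le]
      constructor <;> linarith [k2.1, k2.2, k1.1, k1.2]
    have hcc : 2 * K + 2 * c ^ 2 ≤ c * L := by
      rw [hcL]
      have : c ≤ 1 / 2 := by rw [hc]; linarith
      nlinarith
    have hmain := two_cells (gT_meas hT) (fun x y hxy => gT_low hT hxy) (gT_ii hT) hc0 hL0 hcc i1 i2
    refine hmain.trans ?_
    -- remove the countable set of discontinuities and zero
    have hcount : ({x | ¬ContinuousAt (CF T) x} ∪ {0} : Set ℝ).Countable :=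
      hm.countable_not_continuousAt.union (countable_singleton 0)
    have hnull : volume ({x | ¬ContinuousAt (CF T) x} ∪ {0} : Set ℝ) = 0 := hcount.measure_zero _
    refine (measure_mono (t := (({x | (0 < x ∧ x ≤ A + 3 * L) ∧ |gT T x| ≤ c ∧
      ContinuousAt (CF T) x} ∩ Icc a (a + 3 * L)) ∪ ({x | ¬ContinuousAt (CF T) x} ∪ {0}))) ?_).trans
      ((measure_union_le _ _).trans (by rw [hnull, add_zero]))
    intro x hx
    by_cases hx0 : x = 0
    · exact Or.inr (Or.inr hx0)
    by_cases hxc : ContinuousAt (CF T) x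
    · left
      have h1 : 0 ≤ x := ha.1.trans (hj1.trans hx.1.1)
      refine ⟨⟨⟨lt_of_le_of_ne h1 (Ne.symm hx0), ?_⟩, hx.2, hxc⟩, hj1.trans hx.1.1, ?_⟩
      · linarith [hx.1.2, ha.2]
      · linarith [hx.1.2]
    · exact Or.inr (Or.inl hxc)
  · rw [NW_exact hT hx.1.1 hxy.le hx.2.2]
    have g1 := abs_le.1 hx.2.1
    have g2 := abs_le.1 hy.2.1
    unfold gT at g1 g2
    rw [abs_le]
    constructor <;> linarith [g1.1, g1.2, g2.1, g2.2]

end Pool.Agent.P8H98.XE
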