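import Mathlib

set_option autoImplicit false

/-! # Bands of small values of a function whose decrease is at most linear -/

namespace Pool.Agent.P8H98.XE

open MeasureTheory Set

/-- a function which falls with slope at least `-1` spends some time in every band it crosses -/
lemma band {g : ℝ → ℝ} (hg : ∀ x y, x ≤ y → g x - (y - x) ≤ g y) {c p q : ℝ}
    (hpq : p ≤ q) (hp : c ≤ g p) (hq : g q ≤ -c) :
    ∃ r, p ≤ r ∧ r + 2 * c ≤ q ∧ ∀ x ∈ Ioo r (r + 2 * c), |g x| ≤ c := by
  set S : Set ℝ := {x | x ∈ Icc p q ∧ c ≤ g x} with hS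
  have hne : S.Nonempty := ⟨p, ⟨le_rfl, hpq⟩, hp⟩
  have hbd : BddAbove S := ⟨q, fun x hx => hx.1.2⟩
  have hpr : p ≤ sSup S := le_csSup hbd ⟨⟨le_rfl, hpq⟩, hp⟩
  have hrq : sSup S ≤ q := csSup_le hne fun x hx => hx.1.2
  have hlow : ∀ y, sSup S ≤ y → y ≤ q → c - (y - sSup S) ≤ g y := by
    intro y hy hyq
    by_contra hcon
    push Not at hcon
    obtain ⟨x, hx, hxS⟩ := exists_lt_of_lt_csSup hne
      (show g y + y - c < sSup S by linarith)
    have h1 := hg x y ((le_csSup hbd hx).trans hy)
    linarith [hx.2]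
  have h2 := hlow q hrq le_rfl
  refine ⟨sSup S, hpr, by linarith, fun x hx => ?_⟩
  have hxq : x ≤ q := by linarith [hx.2]
  have h3 := hlow x hx.1.le hxq
  have h4 : g x < c := by
    by_contra hcon
    push Not at hcon
    have : x ∈ S := ⟨⟨hpr.trans hx.1.le, hxq⟩, hcon⟩
    linarith [le_csSup hbd this, hx.1]
  rw [abs_le]
  constructor <;> linarith [hx.2]

/-- if a function is at most `c` on an interval, its integral is small unless it is often at least
`-c` -/
lemma cell_hi {g : ℝ → ℝ} (hm : Measurable g) {u v : ℝ} (hi : IntervalIntegrable g volume u v)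
    (huv : u ≤ v) {c : ℝ} (hub : ∀ x ∈ Icc u v, g x ≤ c) :
    ∫ x in u..v, g x ≤ -c * (v - u) + 2 * c * (volume (Icc u v ∩ {x | |g x| ≤ c})).toReal := by
  have hSm : MeasurableSet {x | |g x| ≤ c} := measurableSet_le hm.abs measurable_const
  set S : Set ℝ := {x | |g x| ≤ c} with hS
  have hle : ∫ x in u..v, g x ≤ ∫ x in u..v, (-c + S.indicator (fun _ => 2 * c) x) := by
    refine intervalIntegral.integral_mono_on huv hi ?_ ?_
    · refine intervalIntegrable_const.add ?_
      rw [intervalIntegrable_iff_integrableOn_Icc_of_le huv]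
      exact (integrableOn_const (by simp)).indicator hSm
    · intro x hx
      by_cases h : x ∈ S
      · rw [indicator_of_mem h]
        linarith [hub x hx]
      · rw [indicator_of_notMem h]
        have h1 : c < |g x| := by
          by_contra hcon
          push Not at hcon
          exact h hcon
        rcases lt_abs.1 h1 with h2 | h2
        · linarith [hub x hx]
        · linarith
  refine hle.trans (le_of_eq ?_)
  rw [intervalIntegral.integral_add intervalIntegrable_const]
  · rw [intervalIntegral.integral_const, smul_eq_mul,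
      intervalIntegral.integral_of_le huv, ← integral_Icc_eq_integral_Ioc,
      setIntegral_indicator hSm, setIntegral_const, smul_eq_mul, measureReal_def]
    ring
  · rw [intervalIntegrable_iff_integrableOn_Icc_of_le huv]
    exact (integrableOn_const (by simp)).indicator hSm

/-- two neighbouring intervals on which the integral is small contain many points where the function
is small -/
theorem two_cells {g : ℝ → ℝ} (hm : Measurable g) (hg : ∀ x y, x ≤ y → g x - (y - x) ≤ g y)
    {u L c K : ℝ} (hi : ∀ a b, IntervalIntegrable g volume a b) (hc : 0 < c) (hL : 0 < L)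
    (hcL : K + 2 * c ^ 2 ≤ c * L) (h1 : |∫ x in u..(u + L), g x| ≤ K)
    (h2 : |∫ x in (u + L)..(u + 2 * L), g x| ≤ K) :
    ENNReal.ofReal c ≤ volume (Icc u (u + 2 * L) ∩ {x | |g x| ≤ c}) := by
  set M : Set ℝ := Icc u (u + 2 * L) ∩ {x | |g x| ≤ c} with hM
  by_contra hcon
  push Not at hcon
  have hMt : ∀ {N : Set ℝ}, N ⊆ M → (volume N).toReal < c := by
    intro N hN
    have h3 := (measure_mono hN).trans_lt hcon
    have h4 : volume N ≠ ⊤ := ne_top_of_lt h3
    exact (ENNReal.lt_ofReal_iff_toReal_lt h4).1 h3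
  -- a point above the band in the first cell
  have hp : ∃ p ∈ Icc u (u + L), c < g p := by
    by_contra hc1
    push Not at hc1
    have h3 := cell_hi hm (hi u (u + L)) (by linarith) hc1
    have h4 := hMt (N := Icc u (u + L) ∩ {x | |g x| ≤ c})
      (fun x hx => ⟨⟨hx.1.1, by linarith [hx.1.2]⟩, hx.2⟩)
    have h5 := (abs_le.1 h1).1
    have h6 : 2 * c * (volume (Icc u (u + L) ∩ {x | |g x| ≤ c})).toReal < 2 * c * c := by
      exact mul_lt_mul_of_pos_left h4 (by linarith)
    nlinarith
  have hq : ∃ q ∈ Icc (u + L) (u + 2 * L), g q < -c := by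
    by_contra hc1
    push Not at hc1
    have h3 := cell_hi (g := fun x => -g x) (c := c) hm.neg (hi (u + L) (u + 2 * L)).neg (by linarith)
      (fun x hx => by linarith [hc1 x hx])
    rw [intervalIntegral.integral_neg] at h3
    have h4 := hMt (N := Icc (u + L) (u + 2 * L) ∩ {x | |g x| ≤ c})
      (fun x hx => ⟨⟨by linarith [hx.1.1], hx.1.2⟩, hx.2⟩)
    simp only [abs_neg] at h3
    have h5 := (abs_le.1 h2).2
    have h6 : 2 * c * (volume (Icc (u + L) (u + 2 * L) ∩ {x | |g x| ≤ c})).toReal < 2 * c * c := by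
      exact mul_lt_mul_of_pos_left h4 (by linarith)
    nlinarith
  obtain ⟨p, hp1, hp2⟩ := hp
  obtain ⟨q, hq1, hq2⟩ := hq
  obtain ⟨r, hr1, hr2, hr3⟩ := band hg (hp1.2.trans hq1.1) hp2.le hq2.le
  have h7 : Ioo r (r + 2 * c) ⊆ M := fun x hx =>
    ⟨⟨by linarith [hx.1, hp1.1], by linarith [hx.2, hq1.2]⟩, hr3 x hx⟩
  have h8 := hMt h7
  rw [Real.volume_Ioo, ENNReal.toReal_ofReal (by linarith)] at h8
  linarith

end Pool.Agent.P8H98.XE
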